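import Pool.Agent.H12R2.And11

/-!
# A finite-volume criterion for the absence of absolutely continuous spectrum: deterministic part

Cubes in which all solutions decay on a core, covering of shells by a bounded number of cores, and the step
of the multiscale analysis.
-/

set_option autoImplicit false

namespace Pool.Agent.Q62.FV

open Finset Complex MeasureTheory ProbabilityTheory Filter
open Pool.Agent.H12R2.And

variable {d : ℕ}

/-- decay of the solutions of `H u = (E + i ε) u` in the cube of radius `10 l` around `a`, on the core of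
radius `l` -/
def Core (ω : V d → Bool) (E : ℝ) (l : ℕ) (κ : ℝ) (a : V d) : Prop :=
  ∀ (ε : ℝ) (u : V d → ℂ) (S : ℝ),
    (∀ x ∈ Q a (10 * l), hop ω u x = ((E : ℂ) + ε * I) * u x) →
    (∀ x ∈ Q a (10 * l + 1), ‖u x‖ ≤ S) → ∀ w ∈ Q a l, ‖u w‖ ≤ κ * S

lemma Core.mono {ω : V d → Bool} {E κ κ' : ℝ} {l : ℕ} {a : V d} (h : Core ω E l κ a)
    (hκ : κ ≤ κ') : Core ω E l κ' a := by
  intro ε u S hu hS w hw
  have hS0 : 0 ≤ S := (norm_nonneg _).trans (hS a (self_mem_Q a _))
  exact (h ε u S hu hS w hw).trans (mul_le_mul_of_nonneg_right hκ hS0)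

lemma Core.good {ω : V d → Bool} {E κ : ℝ} {l : ℕ} {a w : V d} (h : Core ω E l κ a)
    (hw : w ∈ Q a l) : Good ω E (11 * l) κ w := by
  intro ε u S hu hS
  have ha : a ∈ Q w l := Q_symm.1 hw
  refine h ε u S (fun x hx => hu x ?_) (fun x hx => hS x ?_) w hw
  · have := Q_trans ha hx
    exact Q_mono (by omega) this
  · have := Q_trans ha hx
    exact Q_mono (by omega) this

lemma good_enlarge {ω : V d → Bool} {E κ : ℝ} {L L' : ℕ} {a : V d} (h : Good ω E L κ a)
    (hL : L ≤ L') : Good ω E L' κ a := by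
  intro ε u S hu hS
  exact h ε u S (fun x hx => hu x (Q_mono hL hx)) (fun x hx => hS x (Q_mono (by omega) hx))

/-- centres of the cores which cover the shell of radius `(3 j + 2) * (10 l)` around `a` -/
noncomputable def Grid (a : V d) (l j : ℕ) : Finset (V d) :=
  open Classical in
  ((Q (0 : V d) (10 * (3 * j + 2))).image fun m i => a i + (l : ℤ) * m i).filter
    fun c => c ∉ Q a ((3 * j + 2) * (10 * l) - (l + 1))

lemma card_Grid {j : ℕ} (hj : j < 3) (a : V d) (l : ℕ) : (Grid a l j).card ≤ 161 ^ d := by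
  classical
  unfold Grid
  refine (Finset.card_filter_le _ _).trans (Finset.card_image_le.trans ?_)
  rw [card_Q]
  exact Nat.pow_le_pow_left (by omega) d

lemma Grid_sub {a c : V d} {l j : ℕ} (hc : c ∈ Grid a l j) :
    c ∈ Q a ((3 * j + 2) * (10 * l)) ∧ c ∉ Q a ((3 * j + 2) * (10 * l) - (l + 1)) := by
  classical
  unfold Grid at hc
  rw [Finset.mem_filter, Finset.mem_image] at hc
  obtain ⟨⟨m, hm, rfl⟩, h2⟩ := hc
  refine ⟨?_, h2⟩
  rw [mem_Q] at hm ⊢
  intro i
  have h1 := hm i
  simp only [Pi.zero_apply, sub_zero] at h1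
  have e : a i + (l : ℤ) * m i - a i = l * m i := by ring
  rw [e, abs_mul, Nat.abs_cast]
  push_cast at h1 ⊢
  calc (l : ℤ) * |m i| ≤ l * (10 * (3 * j + 2)) := by gcongr
    _ = (3 * j + 2) * (10 * l) := by ring

lemma Grid_cover {a w : V d} {l j : ℕ} (hl : 1 ≤ l) (hw : w ∈ Q a ((3 * j + 2) * (10 * l)))
    (hw' : w ∉ Q a ((3 * j + 2) * (10 * l) - 1)) : ∃ c ∈ Grid a l j, w ∈ Q c l := by
  classical
  have hl' : (0 : ℤ) < l := by exact_mod_cast hl
  refine ⟨fun i => a i + (l : ℤ) * ((w i - a i) / l), ?_, ?_⟩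
  · unfold Grid
    rw [Finset.mem_filter, Finset.mem_image]
    refine ⟨⟨fun i => (w i - a i) / l, ?_, rfl⟩, ?_⟩
    · rw [mem_Q] at hw ⊢
      intro i
      have h1 := hw i
      simp only [Pi.zero_apply, sub_zero]
      rw [abs_le] at h1 ⊢
      push_cast at h1 ⊢
      constructor
      · rw [Int.le_ediv_iff_mul_le hl']
        calc -(10 * (3 * (j : ℤ) + 2)) * l = -((3 * j + 2) * (10 * l)) := by ring
          _ ≤ _ := h1.1
      · have : (w i - a i) / (l : ℤ) ≤ ((3 * j + 2) * (10 * l)) / l :=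
          Int.ediv_le_ediv hl' h1.2
        refine this.trans (le_of_eq ?_)
        have e : (3 * (j : ℤ) + 2) * (10 * l) = (10 * (3 * j + 2)) * l := by ring
        rw [e, Int.mul_ediv_cancel _ hl'.ne']
    · intro hc
      apply hw'
      rw [mem_Q] at hc ⊢
      intro i
      have h1 := hc i
      have h2 := hw
      rw [mem_Q] at h2
      have h3 := h2 i
      have e : a i + (l : ℤ) * ((w i - a i) / l) - a i = l * ((w i - a i) / l) := by ring
      rw [e] at h1
      have h4 := Int.emod_add_mul_ediv (w i - a i) l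
      have h5 := Int.emod_nonneg (w i - a i) hl'.ne'
      have h6 := Int.emod_lt_of_pos (w i - a i) hl'
      have hbig : l + 1 ≤ (3 * j + 2) * (10 * l) := by nlinarith
      rw [Nat.cast_sub hbig] at h1
      rw [Nat.cast_sub (by omega)]
      push_cast at h1 ⊢
      rw [abs_le] at h1 ⊢
      constructor <;> linarith [h1.1, h1.2]
  · rw [mem_Q]
    intro i
    have h4 := Int.emod_add_mul_ediv (w i - a i) l
    have h5 := Int.emod_nonneg (w i - a i) hl'.ne'
    have h6 := Int.emod_lt_of_pos (w i - a i) hl'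
    have e : w i - (a i + (l : ℤ) * ((w i - a i) / l)) = (w i - a i) % l := by linarith
    rw [e, abs_of_nonneg h5]
    exact h6.le

/-- the good events of the multiscale analysis -/
def GC (r M l : ℕ) : ℕ → (V d → Bool) → ℝ → V d → Prop
  | 0, ω, E, a => Core ω E l ((((10 * l : ℕ) : ℝ) ^ M)⁻¹) a
  | k + 1, ω, E, a => RR r ω E (10 * (10 ^ k * l)) a ∧ ∃ i j : ℕ, i < j ∧ j < 3 ∧
      (∀ c ∈ Grid a (10 ^ k * l) i, GC r M l k ω E c) ∧
      (∀ c ∈ Grid a (10 ^ k * l) j, GC r M l k ω E c)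

lemma core_of_GC {r M l : ℕ} (hd : 1 ≤ d) (hM : 2 * (r + d) + 1 ≤ M) (h1 : 1 ≤ l)
    (hl : (2 * d * 17 ^ d) ^ 2 * 10 ^ M ≤ 10 * l) {E : ℝ} :
    ∀ (k : ℕ) (ω : V d → Bool) (a : V d), GC r M l k ω E a →
      Core ω E (10 ^ k * l) ((((10 * (10 ^ k * l) : ℕ) : ℝ) ^ M)⁻¹) a := by
  intro k
  induction k with
  | zero => intro ω a h; simpa [GC] using h
  | succ k ih =>
    rintro ω a ⟨hR, i, j, hij, hj, hi', hj'⟩
    set l' := 10 ^ k * l with hl'def
    have hl1 : 1 ≤ l' := Nat.one_le_iff_ne_zero.mpr (by positivity)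
    have hll : l ≤ l' := Nat.le_mul_of_pos_left _ (by positivity)
    obtain ⟨L, hLdef⟩ : ∃ L, L = 10 * l' := ⟨_, rfl⟩
    have hL1 : 1 ≤ L := by omega
    have hL' : (1 : ℝ) ≤ L := by exact_mod_cast hL1
    have hd' : (1 : ℝ) ≤ d := by exact_mod_cast hd
    have e10 : 10 ^ (k + 1) * l = L := by rw [hLdef, hl'def]; ring
    rw [e10]
    have hbig : (2 * d * 17 ^ d) ^ 2 * 10 ^ M ≤ L := by
      refine hl.trans ?_
      omega
    have hKκ := numeric_step (d := d) hM hL1 hbig
    refine Core.mono ?_ hKκ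
    rw [← hLdef] at ih hR
    have hsh : ∀ j : ℕ, j < 3 → (∀ c ∈ Grid a l' j, GC r M l k ω E c) →
        ∀ w ∈ Q a ((3 * j + 2) * L), w ∉ Q a ((3 * j + 2) * L - 1) →
          Good ω E (11 * l') (((L : ℝ) ^ M)⁻¹) w := by
      intro j hj h w hw hw'
      rw [hLdef] at hw hw'
      obtain ⟨c, hc, hwc⟩ := Grid_cover hl1 hw hw'
      exact (ih ω c (h c hc)).good hwc
    have hκ0 : (0 : ℝ) ≤ ((L : ℝ) ^ M)⁻¹ := by positivity
    have hK1 : (1 : ℝ) ≤ 2 * d * 17 ^ d * (L : ℝ) ^ (r + d) := by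
      have : (1 : ℝ) ≤ 2 * d * 17 ^ d := by
        have : (1 : ℝ) ≤ 17 ^ d := one_le_pow₀ (by norm_num)
        nlinarith
      have h2 : (1 : ℝ) ≤ (L : ℝ) ^ (r + d) := one_le_pow₀ hL'
      nlinarith
    have hKj : ∀ j : ℕ, j < 3 → (((L : ℝ) ^ r)⁻¹)⁻¹ *
        (2 * d * (2 * (((3 * j + 2) * L : ℕ) : ℝ) + 1) ^ d) ≤
          2 * d * 17 ^ d * (L : ℝ) ^ (r + d) := by
      intro j hj
      rw [inv_inv]
      have h8 : (2 * (((3 * j + 2) * L : ℕ) : ℝ) + 1) ≤ 17 * L := by
        have : (3 * j + 2) * L ≤ 8 * L := Nat.mul_le_mul_right _ (by omega)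
        have h9 : (((3 * j + 2) * L : ℕ) : ℝ) ≤ 8 * L := by exact_mod_cast this
        linarith
      have h0' : (0 : ℝ) ≤ 2 * (((3 * j + 2) * L : ℕ) : ℝ) + 1 := by positivity
      calc (L : ℝ) ^ r * (2 * d * (2 * (((3 * j + 2) * L : ℕ) : ℝ) + 1) ^ d)
          ≤ (L : ℝ) ^ r * (2 * d * (17 * L) ^ d) := by gcongr
        _ = 2 * d * 17 ^ d * (L : ℝ) ^ (r + d) := by
            rw [mul_pow, pow_add]; ring
    have hi3 : i < 3 := by omega
    intro ε u S hu hS w hw
    have hjL : (3 * j + 2) * L ≤ 8 * L := Nat.mul_le_mul_right _ (by omega)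
    have hiL : (3 * i + 2) * L + 3 * L ≤ (3 * j + 2) * L := by
      rw [← add_mul]; exact Nat.mul_le_mul_right _ (by omega)
    have hi2 : 2 * L ≤ (3 * i + 2) * L := Nat.mul_le_mul_right _ (by omega)
    have b2 := shell_bound (τ := ((L : ℝ) ^ r)⁻¹) (by positivity) hκ0 hK1 (a := a) (L := 11 * l')
      (ρ := (3 * j + 2) * L) (R := 10 * L) (by omega) (hKj j hj) (by omega) (hR j hj)
      (hsh j hj hj') hu (S := S) (fun x hx => hS x (Q_mono (by omega) hx))
    have b1 := shell_bound (τ := ((L : ℝ) ^ r)⁻¹) (by positivity) hκ0 hK1 (a := a) (L := 11 * l')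
      (ρ := (3 * i + 2) * L) (R := 10 * L) (by omega) (hKj i hi3) (by omega) (hR i hi3)
      (hsh i hi3 hi') hu (fun x hx => b2 x (Q_mono (by omega) hx))
    have := b1 w (Q_mono (by omega) hw)
    refine this.trans (le_of_eq ?_)
    ring

lemma dep_Core (E : ℝ) (l : ℕ) (κ : ℝ) (a : V d) : Dep (Q a (10 * l)) {ω | Core ω E l κ a} := by
  intro ω ω' h1 h2 ε u S hu hS w hw
  refine h2 ε u S (fun x hx => ?_) hS w hw
  rw [← hu x hx]
  exact hop_congr (h1 x hx)

lemma dep_GC {r M l : ℕ} (E : ℝ) : ∀ (k : ℕ) (a : V d),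
    Dep (Q a (10 * (10 ^ k * l))) {ω | GC r M l k ω E a} := by
  intro k
  induction k with
  | zero =>
    intro a
    have := dep_Core (d := d) E l ((((10 * l : ℕ) : ℝ) ^ M)⁻¹) a
    simpa [GC] using this
  | succ k ih =>
    intro a
    have e10 : 10 * (10 ^ (k + 1) * l) = 10 * (10 * (10 ^ k * l)) := by ring
    rw [e10]
    have key : ∀ (ω ω' : V d → Bool), (∀ x ∈ Q a (10 * (10 * (10 ^ k * l))), ω x = ω' x) →
        ∀ j, j < 3 → (∀ c ∈ Grid a (10 ^ k * l) j, GC r M l k ω E c) →
        (∀ c ∈ Grid a (10 ^ k * l) j, GC r M l k ω' E c) := by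
      intro ω ω' h1 j hj h c hc
      refine ih c ω ω' (fun x hx => h1 x ?_) (h c hc)
      refine Q_mono ?_ (Q_trans (Grid_sub hc).1 hx)
      have : (3 * j + 2) * (10 * (10 ^ k * l)) ≤ 8 * (10 * (10 ^ k * l)) :=
        Nat.mul_le_mul_right _ (by omega)
      omega
    rintro ω ω' h1 ⟨hR, i, j, hij, hj, hi', hj'⟩
    refine ⟨dep_RR r E _ a ω ω' (fun x hx => h1 x (Q_mono (by omega) hx)) hR, i, j, hij, hj,
      key ω ω' h1 i (by omega) hi', key ω ω' h1 j hj hj'⟩

lemma hop_cont (ω : V d → Bool) (x : V d) : Continuous fun u : V d → ℂ => hop ω u x := by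
  unfold hop
  fun_prop

/-- measurability in the energy -/
lemma meas_Core (ω : V d → Bool) (l : ℕ) (κ : ℝ) (a : V d) :
    MeasurableSet {E : ℝ | Core ω E l κ a} := by
  classical
  rw [← MeasurableSet.compl_iff]
  let K : ℕ → Set (ℝ × ℝ × (V d → ℂ)) := fun n =>
    (Set.Icc (-(n : ℝ)) n ×ˢ (Set.Icc (-(n : ℝ)) n ×ˢ
      (Set.univ.pi fun _ => Metric.closedBall (0 : ℂ) 1))) ∩
    {p | (∀ x ∈ Q a (10 * l), hop ω p.2.2 x = ((p.1 : ℂ) + p.2.1 * I) * p.2.2 x) ∧
      ∃ w ∈ Q a l, κ + 1 / ((n : ℝ) + 1) ≤ ‖p.2.2 w‖}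
  have hK : ∀ n, IsCompact (K n) := by
    intro n
    refine IsCompact.inter_right ?_ ?_
    · exact isCompact_Icc.prod (isCompact_Icc.prod
        (isCompact_univ_pi fun _ => isCompact_closedBall 0 1))
    · refine IsClosed.inter ?_ ?_
      · have : {p : ℝ × ℝ × (V d → ℂ) | ∀ x ∈ Q a (10 * l),
            hop ω p.2.2 x = ((p.1 : ℂ) + p.2.1 * I) * p.2.2 x} =
            ⋂ x ∈ Q a (10 * l), {p | hop ω p.2.2 x = ((p.1 : ℂ) + p.2.1 * I) * p.2.2 x} := by
          ext p; simp
        refine (this ▸ ?_ : IsClosed {p : ℝ × ℝ × (V d → ℂ) | ∀ x ∈ Q a (10 * l),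
            hop ω p.2.2 x = ((p.1 : ℂ) + p.2.1 * I) * p.2.2 x})
        refine isClosed_biInter fun x _ => isClosed_eq ?_ ?_
        · exact (hop_cont ω x).comp (continuous_snd.comp continuous_snd)
        · fun_prop
      · have : {p : ℝ × ℝ × (V d → ℂ) | ∃ w ∈ Q a l, κ + 1 / ((n : ℝ) + 1) ≤ ‖p.2.2 w‖} =
            ⋃ w ∈ Q a l, {p | κ + 1 / ((n : ℝ) + 1) ≤ ‖p.2.2 w‖} := by
          ext p; simp
        refine (this ▸ ?_ : IsClosed {p : ℝ × ℝ × (V d → ℂ) |
          ∃ w ∈ Q a l, κ + 1 / ((n : ℝ) + 1) ≤ ‖p.2.2 w‖})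
        refine (Q a l).finite_toSet.isClosed_biUnion fun w _ => ?_
        exact isClosed_le continuous_const (by fun_prop)
  have heq : {E : ℝ | Core ω E l κ a}ᶜ = ⋃ n, Prod.fst '' K n := by
    ext E
    constructor
    · intro hE
      have hE' : ¬ Core ω E l κ a := hE
      unfold Core at hE'
      push Not at hE'
      obtain ⟨ε, u, S, hu, hS, w, hw, hlt⟩ := hE'
      have hwS : ‖u w‖ ≤ S := hS w (Q_mono (by omega) hw)
      have hS0 : 0 < S := by
        rcases (lt_or_eq_of_le ((norm_nonneg _).trans hwS)) with h | h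
        · exact h
        · exfalso
          rw [← h, mul_zero] at hlt
          rw [← h] at hwS
          linarith
      obtain ⟨n, hn⟩ := exists_nat_ge (max (max |E| |ε|) (1 / (‖u w‖ / S - κ)))
      have hpos : 0 < ‖u w‖ / S - κ := by
        rw [sub_pos, lt_div_iff₀ hS0]
        exact hlt
      rw [Set.mem_iUnion]
      refine ⟨n, (E, ε, fun x => if x ∈ Q a (10 * l + 1) then u x / S else 0), ⟨⟨?_, ?_, ?_⟩, ?_, ?_⟩,
        rfl⟩
      · have : |E| ≤ n := ((le_max_left _ _).trans (le_max_left _ _)).trans hn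
        exact abs_le.1 this
      · have : |ε| ≤ n := ((le_max_right _ _).trans (le_max_left _ _)).trans hn
        exact abs_le.1 this
      · intro x _
        rw [Metric.mem_closedBall, dist_zero_right]
        dsimp only
        split_ifs with hx
        · rw [norm_div, Complex.norm_real, Real.norm_of_nonneg hS0.le, div_le_one hS0]
          exact hS x hx
        · simp
      · intro x hx
        dsimp only
        have h1 : ∀ y ∈ Q x 1, y ∈ Q a (10 * l + 1) := fun y hy => Q_trans hx hy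
        have e : hop ω (fun x => if x ∈ Q a (10 * l + 1) then u x / S else 0) x =
            hop ω u x / S := by
          unfold hop
          beta_reduce
          rw [if_pos (h1 x (self_mem_Q _ _))]
          have h2 : ∀ i : Fin d, (if x + ee i ∈ Q a (10 * l + 1) then u (x + ee i) / (S : ℂ) else 0) =
              u (x + ee i) / S := fun i => if_pos (h1 _ (add_ee_mem x i))
          have h3 : ∀ i : Fin d, (if x - ee i ∈ Q a (10 * l + 1) then u (x - ee i) / (S : ℂ) else 0) =
              u (x - ee i) / S := fun i => if_pos (h1 _ (sub_ee_mem x i))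
          simp only [h2, h3]
          rw [add_div, neg_div, Finset.sum_div]
          congr 1
          · congr 1
            refine Finset.sum_congr rfl fun i _ => ?_
            ring
          · ring
        rw [e, hu x hx, if_pos (h1 x (self_mem_Q _ _))]
        ring
      · refine ⟨w, hw, ?_⟩
        dsimp only
        rw [if_pos (Q_mono (by omega) hw), norm_div, Complex.norm_real, Real.norm_of_nonneg hS0.le]
        have h1 : 1 / (‖u w‖ / S - κ) ≤ n := (le_max_right _ _).trans hn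
        have h2 : 1 / ((n : ℝ) + 1) ≤ ‖u w‖ / S - κ := by
          rw [div_le_iff₀ hpos] at h1
          rw [div_le_iff₀ (by positivity)]
          nlinarith
        linarith
    · intro hE
      rw [Set.mem_iUnion] at hE
      obtain ⟨n, ⟨E', ε, u⟩, ⟨⟨_, _, h3⟩, h4, w, hw, h5⟩, rfl⟩ := hE
      intro hC
      have h6 := hC ε u 1 h4 (fun x _ => by
        have := h3 x (Set.mem_univ _)
        rwa [Metric.mem_closedBall, dist_zero_right] at this) w hw
      dsimp only at h5
      have : 0 < 1 / ((n : ℝ) + 1) := by positivity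
      linarith
  rw [heq]
  exact MeasurableSet.iUnion fun n => ((hK n).image continuous_fst).isClosed.measurableSet

lemma meas_GC (r M l : ℕ) (ω : V d → Bool) : ∀ (k : ℕ) (a : V d),
    Measurable (fun E => GC r M l k ω E a) := by
  intro k
  induction k with
  | zero =>
    intro a
    simp only [GC]
    exact measurableSet_setOfPred.1 (meas_Core ω l _ a)
  | succ k ih =>
    intro a
    simp only [GC]
    refine (meas_RR r ω _ a).and ?_
    refine Measurable.exists fun i => Measurable.exists fun j => ?_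
    refine measurable_const.and (measurable_const.and (Measurable.and ?_ ?_))
    · exact Measurable.forall fun w => Measurable.imp measurable_const (ih w)
    · exact Measurable.forall fun w => Measurable.imp measurable_const (ih w)

lemma joint_GC {r M l : ℕ} (k : ℕ) (a : V d) :
    MeasurableSet {p : (V d → Bool) × ℝ | GC r M l k p.1 p.2 a} :=
  measurable_of_dep (Q a (10 * (10 ^ k * l))) (fun E => dep_GC E k a)
    (fun ω => measurableSet_setOfPred.2 (meas_GC r M l ω k a))

lemma joint_Core {l : ℕ} {κ : ℝ} (a : V d) :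
    MeasurableSet {p : (V d → Bool) × ℝ | Core p.1 p.2 l κ a} :=
  measurable_of_dep (Q a (10 * l)) (fun E => dep_Core E l κ a)
    (fun ω => meas_Core ω l κ a)

lemma Core_shift (a : V d) (ω : V d → Bool) (E : ℝ) (l : ℕ) (κ : ℝ) :
    Core (shift a ω) E l κ 0 ↔ Core ω E l κ a := by
  constructor
  · intro h ε u S hu hS w hw
    have h1 := h ε (fun y => u (y + a)) S (fun x hx => ?_) (fun x hx => hS _ (mem_Q_shift.1 hx))
      (w - a) (by rw [mem_Q_shift (a := a), sub_add_cancel]; exact hw)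
    · rwa [sub_add_cancel] at h1
    · rw [hop_shift]
      exact hu _ (mem_Q_shift.1 hx)
  · intro h ε u S hu hS w hw
    have h2 : ∀ x, hop ω (fun y => u (y - a)) (x + a) = hop (shift a ω) u x := by
      intro x
      rw [← hop_shift]
      simp
    have h1 := h ε (fun y => u (y - a)) S (fun x hx => ?_) (fun x hx => hS _ ?_) (w + a)
      (mem_Q_shift.1 hw)
    · rwa [add_sub_cancel_right] at h1
    · have h3 := h2 (x - a)
      rw [sub_add_cancel] at h3
      rw [h3]
      exact hu _ (by rw [mem_Q_shift (a := a), sub_add_cancel]; exact hx)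
    · rw [mem_Q_shift (a := a), sub_add_cancel]
      exact hx

end Pool.Agent.Q62.FV
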