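import Pool.Agent.Q62.FV.Prob

/-!
# A finite-volume criterion for the absence of absolutely continuous spectrum: assembly
-/

set_option autoImplicit false

namespace Pool.Agent.Q62.FV

open Finset Complex MeasureTheory ProbabilityTheory Filter
open Pool.Agent.H12R2.And
open scoped ENNReal Topology InnerProductSpace

variable {d : ℕ}

lemma NR_mono {ω : V d → Bool} {E τ τ' : ℝ} {D : Finset (V d)} (h0 : 0 ≤ τ') (h : NR ω E D τ)
    (hτ : τ' ≤ τ) : NR ω E D τ' := by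
  intro v hv
  refine le_trans ?_ (h v hv)
  gcongr

/-- the scales at which everything works -/
structure Big (d l : ℕ) : Prop where
  one_le : 1 ≤ l
  big1 : (2 * d * 17 ^ d) ^ 2 * 10 ^ (14 * d + 19) ≤ l
  big2 : 48 * 161 ^ (2 * d) ≤ l
  big3 : 4 ^ (14 * d + 18) ≤ l
  big4 : 4 ^ d * (4 * d ^ 2) ≤ l

lemma ev_big (d : ℕ) : ∀ᶠ l : ℕ in atTop, Big d l := by
  filter_upwards [eventually_ge_atTop 1,
    eventually_ge_atTop ((2 * d * 17 ^ d) ^ 2 * 10 ^ (14 * d + 19)),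
    eventually_ge_atTop (48 * 161 ^ (2 * d)), eventually_ge_atTop (4 ^ (14 * d + 18)),
    eventually_ge_atTop (4 ^ d * (4 * d ^ 2))] with l a1 a2 a3 a4 a5
  exact ⟨a1, a2, a3, a4, a5⟩

/-- the main estimate -/
lemma stage (hd : 1 ≤ d) {l : ℕ} (hl : Big d l) {A : Set ℝ} (hA : MeasurableSet A)
    (hAX : A ⊆ XX d (rr d) (10 * l)) (hAC : A ⊆ Crit d l) {N0 : ℝ} (hAN : A ⊆ Set.Ioc (-N0) N0) :
    ∀ᵐ ω ∂(PP d), ∀ (H : lp (fun _ : V d => ℂ) 2 →L[ℂ] lp (fun _ : V d => ℂ) 2), IsH ω H →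
      ∀ (ψ : lp (fun _ : V d => ℂ) 2) (μ : Measure ℝ), IsFiniteMeasure μ →
        (∀ z : ℂ, z.im ≠ 0 → (∫ x, ((x : ℂ) - z)⁻¹ ∂μ) = inner ℂ ψ (Rz H z ψ)) →
        ∀ᵐ E ∂(volume.restrict A), μ.rnDeriv volume E = 0 := by
  have hfin : volume A ≠ ∞ := ne_top_of_le_ne_top (by simp) (measure_mono hAN)
  have hae := ae_ae_FF hl.one_le hl.big2 hA hAX hAC hfin
  filter_upwards [hae] with ω hω H hH ψ μ hμf hμ
  set r : ℕ := rr d with hr
  have hr' : r = 3 * d + 4 := rfl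
  set N : ℝ := max (max N0 1) (2 * ‖H‖) with hN
  have hN1 : N0 ≤ N := (le_max_left _ _).trans (le_max_left _ _)
  have hN2 : 1 ≤ N := (le_max_right _ _).trans (le_max_left _ _)
  set L : ℕ → ℕ := fun k => 4 * (10 * (10 ^ k * l)) with hLdef
  set ε : ℕ → ℝ := fun k => (((L k : ℕ) : ℝ) ^ (3 * r))⁻¹ with hε
  have hl1 := hl.one_le
  have hk1 : ∀ k, 1 ≤ 10 ^ k * l := fun k => Nat.one_le_iff_ne_zero.mpr (by positivity)
  have hLk : ∀ k, 1 ≤ L k := fun k => by
    have := hk1 k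
    simp only [hLdef]
    omega
  have hLk' : ∀ k, (1 : ℝ) ≤ (L k : ℝ) := fun k => by exact_mod_cast hLk k
  have hkL : ∀ k, k < L k := fun k => by
    have h1 : k < 10 ^ k := Nat.lt_pow_self (by norm_num)
    have h2 : 10 ^ k ≤ 10 ^ k * l := Nat.le_mul_of_pos_right _ hl1
    simp only [hLdef]
    omega
  have hε0 : ∀ k, 0 < ε k := fun k => by
    have := hLk' k
    simp only [hε]; positivity
  have hε1 : ∀ k, ε k ≤ N := fun k => by
    have h1 : ε k ≤ 1 := inv_le_one_of_one_le₀ (one_le_pow₀ (hLk' k))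
    linarith
  have hLtend : Tendsto (fun k : ℕ => ((L k : ℝ))⁻¹) atTop (𝓝 0) := by
    apply tendsto_inv_atTop_zero.comp
    apply tendsto_natCast_atTop_atTop.comp
    apply tendsto_atTop_mono (f := fun k => k)
    · intro k
      exact (hkL k).le
    · exact tendsto_id
  have hεt : Tendsto ε atTop (𝓝 0) := by
    refine squeeze_zero (fun k => (hε0 k).le) (fun k => ?_) hLtend
    simp only [hε]
    apply inv_anti₀ (by linarith [hLk' k])
    exact le_self_pow₀ (hLk' k) (by omega)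
  refine singular_on hH.isSelfAdjoint (N := N)
    (hAN.trans (Set.Ioc_subset_Ioc (by linarith) hN1)) (le_max_right _ _) hε0 hε1 hεt
    (fun ψ δ hδ => fin_dense ψ δ hδ) ?_ ψ hμ
  rintro φ ⟨R0, hφ⟩
  filter_upwards [hω] with E hE
  have hGC := fun k => core_of_GC (r := r) (M := 14 * d + 19) (l := l) hd
    (by omega) hl1 (hl.big1.trans (Nat.le_mul_of_pos_left _ (by norm_num))) (E := E) k ω
  have hev : ∀ᶠ k in atTop, gg H φ (ε k) E ≤
      ENNReal.ofReal (7 * ((L k : ℝ))⁻¹ * ‖φ‖ ^ 2) := by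
    have hR : ∀ᶠ k : ℕ in atTop, R0 < L k := by
      filter_upwards [eventually_gt_atTop R0] with k hk
      exact hk.trans (hkL k)
    filter_upwards [hE, hR] with k hFF hRk
    apply ENNReal.ofReal_le_ofReal
    obtain ⟨hSh, hRR⟩ := hFF
    refine decouple hH (r := r) (M := 4 * r + 2 * d + 2) (R0 := R0) (by omega)
      rfl (hLk k) ?_ hRk ?_ ?_ hφ
    · refine hl.big4.trans ?_
      have : l ≤ 10 ^ k * l := Nat.le_mul_of_pos_left _ (by positivity)
      simp only [hLdef]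
      omega
    · have h1 := hRR 2 (by norm_num)
      have e : (3 * 2 + 2) * (10 * (10 ^ k * l)) - 1 = 2 * L k - 1 := by
        simp only [hLdef]
        omega
      rw [e] at h1
      refine NR_mono (by positivity) h1 ?_
      have h2 : (1 : ℝ) ≤ ((10 * (10 ^ k * l) : ℕ) : ℝ) := by
        have := hk1 k
        have : 1 ≤ 10 * (10 ^ k * l) := by omega
        exact_mod_cast this
      apply inv_anti₀ (by positivity)
      apply pow_le_pow_left₀ (by positivity)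
      have : 10 * (10 ^ k * l) ≤ L k := by
        simp only [hLdef]
        omega
      exact_mod_cast this
    · intro w hw hw'
      have e : 2 * L k = (3 * 2 + 2) * (10 * (10 ^ k * l)) := by
        simp only [hLdef]
        omega
      rw [e] at hw hw'
      obtain ⟨c, hc, hwc⟩ := Grid_cover (hk1 k) hw hw'
      have h1 := (hGC k c (hSh c hc)).good hwc
      have h2 : Good ω E (L k) ((((10 * (10 ^ k * l) : ℕ) : ℝ) ^ (14 * d + 19))⁻¹) w :=
        good_enlarge h1 (by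
          simp only [hLdef]
          omega)
      refine h2.mono ?_
      have hx : (1 : ℝ) ≤ ((10 * (10 ^ k * l) : ℕ) : ℝ) := by
        have := hk1 k
        have : 1 ≤ 10 * (10 ^ k * l) := by omega
        exact_mod_cast this
      have hLx : (L k : ℝ) = 4 * ((10 * (10 ^ k * l) : ℕ) : ℝ) := by
        simp only [hLdef]
        push_cast
        ring
      rw [hLx]
      have hexp : 4 * r + 2 * d + 2 = 14 * d + 18 := by omega
      rw [hexp, mul_pow]
      apply inv_anti₀ (by positivity)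
      have e19 : ((10 * (10 ^ k * l) : ℕ) : ℝ) ^ (14 * d + 19) =
          ((10 * (10 ^ k * l) : ℕ) : ℝ) * ((10 * (10 ^ k * l) : ℕ) : ℝ) ^ (14 * d + 18) := by
        rw [← pow_succ']
      rw [e19]
      apply mul_le_mul_of_nonneg_right _ (by positivity)
      have h5 : 4 ^ (14 * d + 18) ≤ 10 * (10 ^ k * l) := by
        refine hl.big3.trans ?_
        have : l ≤ 10 ^ k * l := Nat.le_mul_of_pos_left _ (by positivity)
        omega
      exact_mod_cast h5
  have hlim : Tendsto (fun k : ℕ => ENNReal.ofReal (7 * ((L k : ℝ))⁻¹ * ‖φ‖ ^ 2))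
      atTop (𝓝 0) := by
    have h1 : Tendsto (fun k : ℕ => 7 * ((L k : ℝ))⁻¹ * ‖φ‖ ^ 2) atTop (𝓝 0) := by
      have := (hLtend.const_mul 7).mul_const (‖φ‖ ^ 2)
      simpa using this
    have h2 := (ENNReal.continuous_ofReal.tendsto 0).comp h1
    rw [ENNReal.ofReal_zero] at h2
    exact h2
  exact tendsto_of_tendsto_of_tendsto_of_le_of_le' tendsto_const_nhds hlim
    (Eventually.of_forall fun _ => zero_le) hev

/-- summable bound for the bad energies -/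
lemma volume_compl_XX' {r L0 : ℕ} (hr : r = 3 * d + 4) (hL1 : 1 ≤ L0) :
    volume (XX d r L0)ᶜ ≤ ENNReal.ofReal (12 * 17 ^ d * ((L0 : ℝ) ^ 2)⁻¹) := by
  have hL' : (0 : ℝ) < L0 := by exact_mod_cast hL1
  have h1 : (XX d r L0)ᶜ ⊆ ⋃ k : ℕ, {E | ¬ (PP d).real {ω | ¬ RR r ω E (10 ^ k * L0) (0 : V d)}
      ≤ (((10 ^ k * L0 : ℕ) : ℝ) ^ (2 * d + 2))⁻¹} := by
    intro E hE
    simp only [XX, Set.mem_compl_iff, Set.mem_ofPred_eq, not_forall] at hE
    simp only [Set.mem_iUnion, Set.mem_ofPred_eq]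
    exact hE
  have h2 : ∀ k : ℕ, volume {E | ¬ (PP d).real {ω | ¬ RR r ω E (10 ^ k * L0) (0 : V d)}
      ≤ (((10 ^ k * L0 : ℕ) : ℝ) ^ (2 * d + 2))⁻¹} ≤
        ENNReal.ofReal (6 * 17 ^ d * ((L0 : ℝ) ^ 2)⁻¹ * (1 / 2) ^ k) := by
    intro k
    have hk : 1 ≤ 10 ^ k * L0 := Nat.one_le_iff_ne_zero.mpr (by positivity)
    refine (volume_compl_XX_aux hr hk).trans ?_
    apply ENNReal.ofReal_le_ofReal
    rw [mul_assoc (6 * 17 ^ d : ℝ)]
    apply mul_le_mul_of_nonneg_left _ (by positivity)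
    push_cast
    rw [mul_pow, mul_inv, mul_comm]
    apply mul_le_mul_of_nonneg_left _ (by positivity)
    rw [one_div, inv_pow]
    apply inv_anti₀ (by positivity)
    rw [← pow_mul]
    calc (2 : ℝ) ^ k ≤ 10 ^ k := by gcongr; norm_num
      _ ≤ 10 ^ (k * 2) := pow_le_pow_right₀ (by norm_num) (by omega)
  have hsum : Summable fun k : ℕ => 6 * 17 ^ d * ((L0 : ℝ) ^ 2)⁻¹ * (1 / 2 : ℝ) ^ k :=
    summable_geometric_two.mul_left _
  calc volume (XX d r L0)ᶜ ≤ _ := measure_mono h1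
    _ ≤ ∑' k : ℕ, volume {E | ¬ (PP d).real {ω | ¬ RR r ω E (10 ^ k * L0) (0 : V d)}
      ≤ (((10 ^ k * L0 : ℕ) : ℝ) ^ (2 * d + 2))⁻¹} := measure_iUnion_le _
    _ ≤ ∑' k : ℕ, ENNReal.ofReal (6 * 17 ^ d * ((L0 : ℝ) ^ 2)⁻¹ * (1 / 2) ^ k) :=
        ENNReal.tsum_le_tsum h2
    _ = ENNReal.ofReal (∑' k : ℕ, 6 * 17 ^ d * ((L0 : ℝ) ^ 2)⁻¹ * (1 / 2) ^ k) :=
        (ENNReal.ofReal_tsum_of_nonneg (fun k => by positivity) hsum).symm
    _ = ENNReal.ofReal (12 * 17 ^ d * ((L0 : ℝ) ^ 2)⁻¹) := by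
        congr 1
        rw [tsum_mul_left, tsum_geometric_two]
        ring

/-- almost every energy is good at all large scales -/
lemma ae_XX (d : ℕ) : ∀ᵐ E : ℝ, ∀ᶠ l : ℕ in atTop, E ∈ XX d (rr d) (10 * l) := by
  have h : ∑' l : ℕ, volume (XX d (rr d) (10 * (l + 1)))ᶜ ≠ ∞ := by
    have h1 : ∀ l : ℕ, volume (XX d (rr d) (10 * (l + 1)))ᶜ ≤
        ENNReal.ofReal (12 * 17 ^ d * (((l + 1 : ℕ) : ℝ) ^ 2)⁻¹) := by
      intro l
      refine (volume_compl_XX' (L0 := 10 * (l + 1)) rfl (by omega)).trans ?_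
      apply ENNReal.ofReal_le_ofReal
      apply mul_le_mul_of_nonneg_left _ (by positivity)
      apply inv_anti₀ (by positivity)
      apply pow_le_pow_left₀ (by positivity)
      have : l + 1 ≤ 10 * (l + 1) := by omega
      exact_mod_cast this
    refine ne_top_of_le_ne_top ?_ (ENNReal.tsum_le_tsum h1)
    have hs : Summable fun l : ℕ => (((l : ℕ) : ℝ) ^ 2)⁻¹ := by
      have := Real.summable_nat_pow_inv (p := 2)
      exact this.2 (by norm_num)
    have hs' : Summable fun l : ℕ => 12 * 17 ^ d * (((l + 1 : ℕ) : ℝ) ^ 2)⁻¹ :=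
      ((summable_nat_add_iff 1).2 hs).mul_left _
    rw [← ENNReal.ofReal_tsum_of_nonneg (fun k => by positivity) hs']
    exact ENNReal.ofReal_ne_top
  have h2 := ae_eventually_notMem h
  filter_upwards [h2] with E hE
  have h3 : ∀ᶠ l : ℕ in atTop, E ∈ XX d (rr d) (10 * (l + 1)) := by
    filter_upwards [hE] with l hl
    simpa using hl
  obtain ⟨l0, hl0⟩ := eventually_atTop.1 h3
  refine eventually_atTop.2 ⟨l0 + 1, fun l hl => ?_⟩
  have := hl0 (l - 1) (by omega)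
  rwa [Nat.sub_add_cancel (by omega)] at this

/-- **The finite-volume criterion.** -/
theorem criterion (hd : 1 ≤ d) {B : Set ℝ} (hB : MeasurableSet B)
    (h : ∀ᵐ E ∂(volume.restrict B), ∃ᶠ l : ℕ in atTop, E ∈ Crit d l) :
    ∀ᵐ ω ∂(PP d), ∀ (H : lp (fun _ : V d => ℂ) 2 →L[ℂ] lp (fun _ : V d => ℂ) 2), IsH ω H →
      ∀ (ψ : lp (fun _ : V d => ℂ) 2) (μ : Measure ℝ), IsFiniteMeasure μ →
        (∀ z : ℂ, z.im ≠ 0 → (∫ x, ((x : ℂ) - z)⁻¹ ∂μ) = inner ℂ ψ (Rz H z ψ)) →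
        (μ.restrict B) ⟂ₘ volume := by
  let A : ℕ × ℕ → Set ℝ := fun p => (XX d (rr d) (10 * p.1) ∩ Crit d p.1) ∩
    Set.Ioc (-(p.2 : ℝ)) p.2
  have hA : ∀ p, MeasurableSet (A p) := fun p =>
    ((measurableSet_XX _ _).inter (meas_Crit _)).inter measurableSet_Ioc
  have h1 : ∀ᵐ ω ∂(PP d), ∀ p : ℕ × ℕ, Big d p.1 →
      ∀ (H : lp (fun _ : V d => ℂ) 2 →L[ℂ] lp (fun _ : V d => ℂ) 2), IsH ω H →
      ∀ (ψ : lp (fun _ : V d => ℂ) 2) (μ : Measure ℝ), IsFiniteMeasure μ →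
        (∀ z : ℂ, z.im ≠ 0 → (∫ x, ((x : ℂ) - z)⁻¹ ∂μ) = inner ℂ ψ (Rz H z ψ)) →
        ∀ᵐ E ∂(volume.restrict (A p)), μ.rnDeriv volume E = 0 := by
    rw [ae_all_iff]
    intro p
    by_cases hp : Big d p.1
    · filter_upwards [stage hd hp (hA p) (fun E hE => hE.1.1) (fun E hE => hE.1.2)
        (fun E hE => hE.2)] with ω hω _
      exact hω
    · exact ae_of_all _ fun ω h => absurd h hp
  have h2 : ∀ᵐ E ∂(volume.restrict B), ∃ p : ℕ × ℕ, Big d p.1 ∧ E ∈ A p := by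
    filter_upwards [h, ae_restrict_of_ae (ae_XX d)] with E hE1 hE2
    obtain ⟨l, hl1, hl2, hl3⟩ := (hE1.and_eventually (hE2.and (ev_big d))).exists
    obtain ⟨N, hN⟩ := exists_nat_gt |E|
    rw [abs_lt] at hN
    exact ⟨(l, N), hl3, ⟨hl2, hl1⟩, hN.1, hN.2.le⟩
  filter_upwards [h1] with ω hω H hH ψ μ hμf hμ
  apply mutuallySingular_of_rnDeriv hB
  have h3 : ∀ᵐ E : ℝ, ∀ p : ℕ × ℕ, Big d p.1 → E ∈ A p → μ.rnDeriv volume E = 0 := by
    rw [ae_all_iff]
    intro p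
    by_cases hp : Big d p.1
    · have := (ae_restrict_iff' (hA p)).1 (hω p hp H hH ψ μ hμf hμ)
      filter_upwards [this] with E hE _ hEA
      exact hE hEA
    · exact ae_of_all _ fun E h => absurd h hp
  filter_upwards [h2, ae_restrict_of_ae h3] with E ⟨p, hp1, hp2⟩ hE
  exact hE p hp1 hp2

end Pool.Agent.Q62.FV
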