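import Pool.Agent.Q62.FV.Det

/-!
# A finite-volume criterion for the absence of absolutely continuous spectrum: probabilistic part
-/

set_option autoImplicit false

namespace Pool.Agent.Q62.FV

open Finset Complex MeasureTheory ProbabilityTheory Filter
open Pool.Agent.H12R2.And
open scoped ENNReal Topology

variable {d : ℕ}

/-- the threshold -/
noncomputable def pd (d : ℕ) : ℝ := (12 * 161 ^ (2 * d))⁻¹

lemma pd_pos : 0 < pd d := by unfold pd; positivity

/-- the event that all cores of a grid are good -/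
def Sh (r M l k : ℕ) (E : ℝ) (a : V d) (j : ℕ) : Set (V d → Bool) :=
  {ω | ∀ c ∈ Grid a (10 ^ k * l) j, GC r M l k ω E c}

lemma dep_Sh {r M l : ℕ} (hl : 1 ≤ l) (k : ℕ) (E : ℝ) (a : V d) (j : ℕ) :
    Dep (Q a ((3 * j + 2) * (10 * (10 ^ k * l)) + 10 * (10 ^ k * l)) \
      Q a ((3 * j + 2) * (10 * (10 ^ k * l)) - (10 * (10 ^ k * l) + (10 ^ k * l + 1))))
      (Sh r M l k E a j) := by
  intro ω ω' h1 h2 c hc
  obtain ⟨hc1, hc2⟩ := Grid_sub hc
  refine dep_GC E k c ω ω' (fun x hx => h1 x ?_) (h2 c hc)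
  rw [Finset.mem_sdiff]
  refine ⟨Q_trans hc1 hx, fun hcc => hc2 ?_⟩
  have := Q_trans hcc (Q_symm.1 hx)
  refine Q_mono ?_ this
  have hL : 1 ≤ 10 ^ k * l := Nat.one_le_iff_ne_zero.mpr (by positivity)
  have : 2 * (10 * (10 ^ k * l)) ≤ (3 * j + 2) * (10 * (10 ^ k * l)) :=
    Nat.mul_le_mul_right _ (by omega)
  omega

lemma prob_Sh {r M l : ℕ} (k : ℕ) (E : ℝ) (a : V d) {j : ℕ} (hj : j < 3) {q : ℝ} (hq0 : 0 ≤ q)
    (hq : ∀ a : V d, (PP d).real {ω | ¬ GC r M l k ω E a} ≤ q) :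
    (PP d).real (Sh r M l k E a j)ᶜ ≤ 161 ^ d * q := by
  have h1 : (Sh r M l k E a j)ᶜ ⊆
      ⋃ c ∈ Grid a (10 ^ k * l) j, {ω | ¬ GC r M l k ω E c} := by
    intro ω hω
    simp only [Sh, Set.mem_compl_iff, Set.mem_ofPred_eq, not_forall] at hω
    obtain ⟨c, hc, h⟩ := hω
    simp only [Set.mem_iUnion]
    exact ⟨c, hc, h⟩
  calc (PP d).real (Sh r M l k E a j)ᶜ ≤ _ := measureReal_mono h1 (measure_ne_top _ _)
    _ ≤ ∑ c ∈ Grid a (10 ^ k * l) j, (PP d).real {ω | ¬ GC r M l k ω E c} :=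
        measureReal_biUnion_finset_le _ _
    _ ≤ ∑ c ∈ Grid a (10 ^ k * l) j, q := Finset.sum_le_sum fun c _ => hq c
    _ = ((Grid a (10 ^ k * l) j).card : ℝ) * q := by
        rw [Finset.sum_const, nsmul_eq_mul]
    _ ≤ 161 ^ d * q := by
        apply mul_le_mul_of_nonneg_right _ hq0
        exact_mod_cast card_Grid hj a (10 ^ k * l)

lemma real_not_Core (a : V d) (E : ℝ) (l : ℕ) (κ : ℝ) :
    (PP d).real {ω | ¬ Core ω E l κ a} = (PP d).real {ω | ¬ Core ω E l κ (0 : V d)} := by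
  have h1 : {ω : V d → Bool | ¬ Core ω E l κ a} = shift a ⁻¹' {ω | ¬ Core ω E l κ (0 : V d)} := by
    ext ω
    simp only [Set.mem_ofPred_eq, Set.mem_preimage, Core_shift]
  rw [h1, real_shift]
  exact (dep_Core E l κ (0 : V d)).compl.measurable

/-- the probabilistic step -/
lemma prob_GC {r M l : ℕ} (h1 : 1 ≤ l) (hl : 48 * 161 ^ (2 * d) ≤ l) {E : ℝ}
    (h0 : (PP d).real {ω | ¬ Core ω E l ((((10 * l : ℕ) : ℝ) ^ M)⁻¹) (0 : V d)} ≤ pd d)
    (hres : ∀ k, (PP d).real {ω | ¬ RR r ω E (10 * (10 ^ k * l)) (0 : V d)}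
      ≤ (((10 * (10 ^ k * l) : ℕ) : ℝ) ^ (2 * d + 2))⁻¹) :
    ∀ (k : ℕ) (a : V d), (PP d).real {ω | ¬ GC r M l k ω E a} ≤ pd d * (1 / 2) ^ k := by
  intro k
  induction k with
  | zero =>
    intro a
    have := real_not_Core a E l ((((10 * l : ℕ) : ℝ) ^ M)⁻¹)
    simp only [GC, pow_zero, mul_one]
    rw [this]
    exact h0
  | succ k ih =>
    intro a
    have hp := pd_pos (d := d)
    have hl1 : 1 ≤ 10 ^ k * l := Nat.one_le_iff_ne_zero.mpr (by positivity)
    set B : ℕ → Set (V d → Bool) := fun j => (Sh r M l k E a j)ᶜ with hB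
    have hsub : {ω : V d → Bool | ¬ GC r M l (k + 1) ω E a} ⊆
        ((B 0 ∩ B 1) ∪ (B 0 ∩ B 2) ∪ (B 1 ∩ B 2)) ∪
          {ω | ¬ RR r ω E (10 * (10 ^ k * l)) a} := by
      intro ω hω
      by_contra hc
      simp only [Set.mem_union, Set.mem_inter_iff, not_or, not_and, hB, Set.mem_compl_iff,
        not_not, Set.mem_ofPred_eq] at hc
      obtain ⟨⟨⟨c1, c2⟩, c3⟩, c4⟩ := hc
      apply hω
      refine ⟨c4, ?_⟩
      by_cases g0 : ω ∈ Sh r M l k E a 0
      · by_cases g1 : ω ∈ Sh r M l k E a 1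
        · exact ⟨0, 1, by norm_num, by norm_num, g0, g1⟩
        · exact ⟨0, 2, by norm_num, by norm_num, g0, c3 g1⟩
      · exact ⟨1, 2, by norm_num, by norm_num, c1 g0, c2 g0⟩
    have hind : ∀ i j : ℕ, i < j → j < 3 → (PP d).real (B i ∩ B j) ≤
        (161 ^ d * (pd d * (1 / 2) ^ k)) ^ 2 := by
      intro i j hij hj
      have hdisj : Disjoint
          (Q a ((3 * i + 2) * (10 * (10 ^ k * l)) + 10 * (10 ^ k * l)) \
            Q a ((3 * i + 2) * (10 * (10 ^ k * l)) - (10 * (10 ^ k * l) + (10 ^ k * l + 1))))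
          (Q a ((3 * j + 2) * (10 * (10 ^ k * l)) + 10 * (10 ^ k * l)) \
            Q a ((3 * j + 2) * (10 * (10 ^ k * l)) - (10 * (10 ^ k * l) + (10 ^ k * l + 1)))) := by
        rw [Finset.disjoint_left]
        intro x hx hx'
        rw [Finset.mem_sdiff] at hx hx'
        apply hx'.2
        refine Q_mono ?_ hx.1
        have : (3 * i + 2) * (10 * (10 ^ k * l)) + 3 * (10 * (10 ^ k * l)) ≤
            (3 * j + 2) * (10 * (10 ^ k * l)) := by
          rw [← add_mul]; exact Nat.mul_le_mul_right _ (by omega)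
        omega
      rw [(dep_Sh h1 k E a i).compl.indep (dep_Sh h1 k E a j).compl hdisj, sq]
      have p1 := prob_Sh k E a (by omega : i < 3) (by positivity) ih
      have p2 := prob_Sh k E a hj (by positivity) ih
      exact mul_le_mul p1 p2 measureReal_nonneg (by positivity)
    have hq : (PP d).real {ω : V d → Bool | ¬ GC r M l (k + 1) ω E a} ≤
        3 * (161 ^ d * (pd d * (1 / 2) ^ k)) ^ 2 +
          (((10 * (10 ^ k * l) : ℕ) : ℝ) ^ (2 * d + 2))⁻¹ := by
      calc (PP d).real {ω : V d → Bool | ¬ GC r M l (k + 1) ω E a}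
          ≤ (PP d).real (((B 0 ∩ B 1) ∪ (B 0 ∩ B 2) ∪ (B 1 ∩ B 2))
              ∪ {ω | ¬ RR r ω E (10 * (10 ^ k * l)) a}) := measureReal_mono hsub (measure_ne_top _ _)
        _ ≤ (PP d).real ((B 0 ∩ B 1) ∪ (B 0 ∩ B 2) ∪ (B 1 ∩ B 2))
              + (PP d).real {ω | ¬ RR r ω E (10 * (10 ^ k * l)) a} := measureReal_union_le _ _
        _ ≤ ((PP d).real ((B 0 ∩ B 1) ∪ (B 0 ∩ B 2)) + (PP d).real (B 1 ∩ B 2))
              + (PP d).real {ω | ¬ RR r ω E (10 * (10 ^ k * l)) a} := by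
            gcongr; exact measureReal_union_le _ _
        _ ≤ (((PP d).real (B 0 ∩ B 1) + (PP d).real (B 0 ∩ B 2)) + (PP d).real (B 1 ∩ B 2))
              + (PP d).real {ω | ¬ RR r ω E (10 * (10 ^ k * l)) a} := by
            gcongr; exact measureReal_union_le _ _
        _ ≤ _ := by
            rw [real_not_RR]
            have q1 := hind 0 1 (by norm_num) (by norm_num)
            have q2 := hind 0 2 (by norm_num) (by norm_num)
            have q3 := hind 1 2 (by norm_num) (by norm_num)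
            have q4 := hres k
            linarith
    refine hq.trans ?_
    have hk0 : (0 : ℝ) < (1 / 2) ^ k := by positivity
    have hk1 : (1 / 2 : ℝ) ^ k ≤ 1 := pow_le_one₀ (by norm_num) (by norm_num)
    have e1 : 3 * (161 ^ d * (pd d * (1 / 2 : ℝ) ^ k)) ^ 2 =
        (1 / 4) * pd d * ((1 / 2) ^ k * (1 / 2) ^ k) := by
      unfold pd
      have : (161 : ℝ) ^ (2 * d) = (161 ^ d) ^ 2 := by rw [← pow_mul, mul_comm]
      rw [this]
      have h161 : (161 : ℝ) ^ d ≠ 0 := by positivity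
      field_simp
      ring
    have e2 : (((10 * (10 ^ k * l) : ℕ) : ℝ) ^ (2 * d + 2))⁻¹ ≤ (1 / 4) * pd d * (1 / 2) ^ k := by
      have hL1 : (1 : ℝ) ≤ ((10 * (10 ^ k * l) : ℕ) : ℝ) := by
        have : 1 ≤ 10 * (10 ^ k * l) := by omega
        exact_mod_cast this
      have h3 : ((10 * (10 ^ k * l) : ℕ) : ℝ) ≤ ((10 * (10 ^ k * l) : ℕ) : ℝ) ^ (2 * d + 2) :=
        le_self_pow₀ hL1 (by omega)
      have h4 : ((48 * 161 ^ (2 * d) : ℕ) : ℝ) * 2 ^ k ≤ ((10 * (10 ^ k * l) : ℕ) : ℝ) := by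
        have h5 : 2 ^ k ≤ 10 ^ k := Nat.pow_le_pow_left (by norm_num) k
        have h6 : (48 * 161 ^ (2 * d)) * 2 ^ k ≤ 10 * (10 ^ k * l) := by
          calc (48 * 161 ^ (2 * d)) * 2 ^ k ≤ l * 10 ^ k := Nat.mul_le_mul hl h5
            _ = 10 ^ k * l := mul_comm _ _
            _ ≤ 10 * (10 ^ k * l) := Nat.le_mul_of_pos_left _ (by norm_num)
        exact_mod_cast h6
      have h7 : (0 : ℝ) < ((48 * 161 ^ (2 * d) : ℕ) : ℝ) * 2 ^ k := by positivity
      calc (((10 * (10 ^ k * l) : ℕ) : ℝ) ^ (2 * d + 2))⁻¹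
          ≤ (((48 * 161 ^ (2 * d) : ℕ) : ℝ) * 2 ^ k)⁻¹ := inv_anti₀ h7 (h4.trans h3)
        _ = (1 / 4) * pd d * (1 / 2) ^ k := by
            unfold pd
            push_cast
            rw [one_div_pow, mul_inv, mul_inv, mul_inv]
            norm_num
            ring
    have e4 : (1 / 2 : ℝ) ^ (k + 1) = (1 / 2) ^ k * (1 / 2) := pow_succ _ _
    rw [e1, e4]
    have e3 : (1 / 4) * pd d * ((1 / 2 : ℝ) ^ k * (1 / 2) ^ k) ≤ (1 / 4) * pd d * (1 / 2) ^ k := by
      have : (1 / 2 : ℝ) ^ k * (1 / 2) ^ k ≤ (1 / 2) ^ k := mul_le_of_le_one_right hk0.le hk1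
      have h5 : 0 ≤ (1 / 4) * pd d := by positivity
      exact mul_le_mul_of_nonneg_left this h5
    linarith

/-- the event used for the decoupling at scale `k` -/
def FF (r M l k : ℕ) (ω : V d → Bool) (E : ℝ) : Prop :=
  ω ∈ Sh r M l k E 0 2 ∧ RR r ω E (10 * (10 ^ k * l)) (0 : V d)

lemma joint_FF {r M l : ℕ} (k : ℕ) :
    MeasurableSet {p : (V d → Bool) × ℝ | FF r M l k p.1 p.2} := by
  have h1 : MeasurableSet {p : (V d → Bool) × ℝ | p.1 ∈ Sh r M l k p.2 0 2} := by
    have : {p : (V d → Bool) × ℝ | p.1 ∈ Sh r M l k p.2 0 2} =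
      ⋂ (c : V d) (_ : c ∈ Grid (0 : V d) (10 ^ k * l) 2),
        {p : (V d → Bool) × ℝ | GC r M l k p.1 p.2 c} := by
      ext p
      simp only [Sh, Set.mem_ofPred_eq, Set.mem_iInter]
    rw [this]
    exact MeasurableSet.iInter fun w => MeasurableSet.iInter fun _ => joint_GC k w
  exact h1.inter (joint_RR r _ 0)

/-- the energies at which the criterion is satisfied at the scale `l` -/
def Crit (d l : ℕ) : Set ℝ :=
  {E | (PP d).real {ω | ¬ Core ω E l ((((10 * l : ℕ) : ℝ) ^ (14 * d + 19))⁻¹) (0 : V d)} ≤ pd d}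

lemma meas_Crit (l : ℕ) : MeasurableSet (Crit d l) := by
  unfold Crit
  have hm : MeasurableSet {p : (V d → Bool) × ℝ |
      ¬ Core p.1 p.2 l ((((10 * l : ℕ) : ℝ) ^ (14 * d + 19))⁻¹) (0 : V d)} :=
    (joint_Core (0 : V d)).compl
  have h2 : Measurable fun E : ℝ => (PP d)
      {ω | ¬ Core ω E l ((((10 * l : ℕ) : ℝ) ^ (14 * d + 19))⁻¹) (0 : V d)} :=
    measurable_measure_prodMk_right hm
  exact measurableSet_le h2.ennreal_toReal measurable_const

/-- the exponents -/
def rr (d : ℕ) : ℕ := 3 * d + 4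

/-- Borel-Cantelli -/
lemma ae_ae_FF {l : ℕ} (h1 : 1 ≤ l) (hl : 48 * 161 ^ (2 * d) ≤ l)
    {B : Set ℝ} (_hB : MeasurableSet B) (hBX : B ⊆ XX d (rr d) (10 * l)) (hBC : B ⊆ Crit d l)
    (hfin : volume B ≠ ∞) :
    ∀ᵐ ω ∂(PP d), ∀ᵐ E ∂(volume.restrict B), ∀ᶠ k in atTop,
      FF (rr d) (14 * d + 19) l k ω E := by
  have : IsFiniteMeasure (volume.restrict B) := ⟨by
    rw [Measure.restrict_apply_univ]; exact lt_of_le_of_ne le_top hfin⟩
  have key : ∀ᵐ p ∂((PP d).prod (volume.restrict B)), ∀ᶠ k in atTop,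
      FF (rr d) (14 * d + 19) l k p.1 p.2 := by
    have hbc : ∑' k : ℕ, ((PP d).prod (volume.restrict B))
        {p : (V d → Bool) × ℝ | ¬ FF (rr d) (14 * d + 19) l k p.1 p.2} ≠ ∞ := by
      have hb : ∀ k : ℕ, ((PP d).prod (volume.restrict B))
          {p : (V d → Bool) × ℝ | ¬ FF (rr d) (14 * d + 19) l k p.1 p.2}
          ≤ ENNReal.ofReal ((161 ^ d * pd d + 1) * (1 / 2) ^ k) * volume B := by
        intro k
        have hm : MeasurableSet {p : (V d → Bool) × ℝ |
            ¬ FF (rr d) (14 * d + 19) l k p.1 p.2} := (joint_FF k).compl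
        rw [Measure.prod_apply_symm hm]
        have hE : ∀ E ∈ B, (PP d) ((fun ω => (ω, E)) ⁻¹'
            {p : (V d → Bool) × ℝ | ¬ FF (rr d) (14 * d + 19) l k p.1 p.2})
            ≤ ENNReal.ofReal ((161 ^ d * pd d + 1) * (1 / 2) ^ k) := by
          intro E hE
          have hX : ∀ k, (PP d).real {ω | ¬ RR (rr d) ω E (10 * (10 ^ k * l)) (0 : V d)}
              ≤ (((10 * (10 ^ k * l) : ℕ) : ℝ) ^ (2 * d + 2))⁻¹ := by
            intro k
            have := hBX hE k
            have e : 10 ^ k * (10 * l) = 10 * (10 ^ k * l) := by ring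
            rwa [e] at this
          have hG := prob_GC (r := rr d) h1 hl (hBC hE) hX k
          have hp := pd_pos (d := d)
          have hS := prob_Sh k E (0 : V d) (by norm_num : 2 < 3) (by positivity) hG
          have hR := hX k
          have hsub : ((fun ω => (ω, E)) ⁻¹' {p : (V d → Bool) × ℝ |
              ¬ FF (rr d) (14 * d + 19) l k p.1 p.2}) ⊆
              (Sh (rr d) (14 * d + 19) l k E 0 2)ᶜ ∪
                {ω | ¬ RR (rr d) ω E (10 * (10 ^ k * l)) (0 : V d)} := by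
            intro ω hω
            simp only [FF, Set.mem_preimage, Set.mem_ofPred_eq, not_and_or] at hω
            exact hω
          have h3 : (PP d).real ((fun ω => (ω, E)) ⁻¹' {p : (V d → Bool) × ℝ |
              ¬ FF (rr d) (14 * d + 19) l k p.1 p.2}) ≤ (161 ^ d * pd d + 1) * (1 / 2) ^ k := by
            refine (measureReal_mono hsub (measure_ne_top _ _)).trans
              ((measureReal_union_le _ _).trans ?_)
            have hL1 : (1 : ℝ) ≤ ((10 * (10 ^ k * l) : ℕ) : ℝ) := by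
              have : 1 ≤ 10 ^ k * l := Nat.one_le_iff_ne_zero.mpr (by positivity)
              have : 1 ≤ 10 * (10 ^ k * l) := by omega
              exact_mod_cast this
            have s2 : (((10 * (10 ^ k * l) : ℕ) : ℝ) ^ (2 * d + 2))⁻¹ ≤ (1 / 2) ^ k := by
              rw [one_div, inv_pow]
              apply inv_anti₀ (by positivity)
              have h4 : (2 : ℝ) ^ k ≤ ((10 * (10 ^ k * l) : ℕ) : ℝ) := by
                have h5 : 2 ^ k ≤ 10 ^ k := Nat.pow_le_pow_left (by norm_num) k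
                have h6 : 2 ^ k ≤ 10 * (10 ^ k * l) :=
                  h5.trans ((Nat.le_mul_of_pos_right _ h1).trans
                    (Nat.le_mul_of_pos_left _ (by norm_num)))
                exact_mod_cast h6
              exact h4.trans (le_self_pow₀ hL1 (by omega))
            have h5 := hR.trans s2
            calc _ ≤ 161 ^ d * (pd d * (1 / 2) ^ k) + (1 / 2) ^ k := add_le_add hS h5
              _ = _ := by ring
          rw [← ENNReal.ofReal_toReal (measure_ne_top (PP d) _)]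
          exact ENNReal.ofReal_le_ofReal h3
        calc ∫⁻ E in B, (PP d) ((fun ω => (ω, E)) ⁻¹'
              {p : (V d → Bool) × ℝ | ¬ FF (rr d) (14 * d + 19) l k p.1 p.2})
            ≤ ∫⁻ _ in B, ENNReal.ofReal ((161 ^ d * pd d + 1) * (1 / 2) ^ k) :=
              setLIntegral_mono measurable_const hE
          _ = _ := by rw [setLIntegral_const]
      refine ne_top_of_le_ne_top ?_ (ENNReal.tsum_le_tsum hb)
      rw [ENNReal.tsum_mul_right]
      refine ENNReal.mul_ne_top ?_ hfin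
      have hp := pd_pos (d := d)
      rw [← ENNReal.ofReal_tsum_of_nonneg (fun k => by positivity)
        (summable_geometric_two.mul_left _)]
      exact ENNReal.ofReal_ne_top
    have := ae_eventually_notMem hbc
    filter_upwards [this] with p hp
    filter_upwards [hp] with k hk
    simpa using hk
  exact Measure.ae_ae_of_ae_prod key

end Pool.Agent.Q62.FV
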